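import Pool.Agent.PFE.StmtsE2b
import Pool.Agent.Helper35_PFD.BFS

/-!
# Squad PFE, row BS1 (helper32): the centre of the part of degree `1` after a base change
-/

set_option autoImplicit false

open scoped BigOperators TensorProduct

noncomputable section

namespace Pool.Agent.PFE.H32

open Pool.Agent.PFD.D2

/-- the centres of isomorphic algebras have the same dimension -/
theorem center_finrank {K A B : Type} [Field K] [Ring A] [Algebra K A] [Ring B] [Algebra K B]
    (e : A ≃ₐ[K] B) :
    Module.finrank K (Subalgebra.center K A) = Module.finrank K (Subalgebra.center K B) := by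
  have h1 : (Subalgebra.center K A).map (e : A →ₐ[K] B) = Subalgebra.center K B := by
    ext b
    rw [Subalgebra.mem_map, Subalgebra.mem_center_iff]
    constructor
    · rintro ⟨a, ha, rfl⟩ c
      obtain ⟨d, rfl⟩ := e.surjective c
      rw [Subalgebra.mem_center_iff] at ha
      change e d * e a = e a * e d
      rw [← map_mul, ha, map_mul]
    · intro h
      refine ⟨e.symm b, ?_, e.apply_symm_apply b⟩
      rw [Subalgebra.mem_center_iff]
      intro a
      apply e.injective
      rw [map_mul, map_mul, e.apply_symm_apply, h]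
  rw [← h1]
  exact LinearEquiv.finrank_eq (Subalgebra.equivMapOfInjective _ (e : A →ₐ[K] B)
    e.injective).toLinearEquiv

/-- BS1 -/
theorem bs1 : Bs1Stmt := by
  intro R K S X _ _ _ _ _ _ _ _ _ _ _ _ G G' hG
  -- the projection onto the part of degree `1`
  obtain ⟨r, hr⟩ : ∃ r : S →ₗ[R] G.S1, ∀ s, ((r s : G.S1) : S) = G.c 1 s :=
    ⟨(G.c 1).codRestrict (Subalgebra.toSubmodule G.S1) (fun s => G.ci 1 s), fun s => rfl⟩
  have hr1 : ∀ s : G.S1, r s = s := fun s => Subtype.ext ((hr s).trans s.2)
  have i1 : Module.Finite R G.S1 := Module.Finite.of_surjective r fun s => ⟨s, hr1 s⟩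
  have i2 : Module.Free R G.S1 :=
    inferInstanceAs (Module.Free R (Subalgebra.toSubmodule G.S1))
  -- the base change of the inclusion
  obtain ⟨f, hf⟩ : ∃ f : K ⊗[R] G.S1 →ₐ[K] K ⊗[R] S, ∀ (k : K) (s : G.S1),
      f (k ⊗ₜ[R] s) = k ⊗ₜ[R] (s : S) :=
    ⟨Algebra.TensorProduct.map (AlgHom.id K K) G.S1.val, fun k s => by
      rw [Algebra.TensorProduct.map_tmul]
      rfl⟩
  have h1 : ∀ m : K ⊗[R] G.S1, r.baseChange K (f m) = m := by
    intro m
    induction m using TensorProduct.induction_on with
    | zero => rw [map_zero, map_zero]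
    | tmul k s => rw [hf, LinearMap.baseChange_tmul, hr1]
    | add a b ha hb => rw [map_add, map_add, ha, hb]
  have h2 : ∀ m : K ⊗[R] S, f (r.baseChange K m) = G'.c 1 m := by
    intro m
    induction m using TensorProduct.induction_on with
    | zero => rw [map_zero, map_zero, map_zero]
    | tmul k s => rw [LinearMap.baseChange_tmul, hf, hr, hG]
    | add a b ha hb => rw [map_add, map_add, map_add, ha, hb]
  have h3 : ∀ m : K ⊗[R] G.S1, f m ∈ G'.S1 := by
    intro m
    change G'.c 1 (f m) = f m
    rw [← h2, h1]
  have h4 : Function.Bijective (f.codRestrict G'.S1 h3) := by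
    constructor
    · intro a b hab
      have h5 : f a = f b := congrArg Subtype.val hab
      rw [← h1 a, h5, h1]
    · intro m
      refine ⟨r.baseChange K m, Subtype.ext ?_⟩
      exact (h2 m).trans m.2
  rw [← center_finrank (AlgEquiv.ofBijective _ h4)]
  exact Pool.Agent.PFD.D4.H35.cnk R K G.S1

end Pool.Agent.PFE.H32
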