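import Pool.Agent.PFE.StmtsS
import Pool.Agent.PFC.B5.CUG_49
import Pool.Agent.Helper70_PFC.QFCa
import Pool.Agent.Helper83_PFC.QTPa

/-!
# Squad PFE, row FLZ (helper32): the centre of `B = Y(Q)`, `Y = N ⊗ X`
-/

set_option autoImplicit false

open scoped BigOperators TensorProduct

noncomputable section

namespace Pool.Agent.PFE.H32

open Pool.Agent.PFC Pool.Agent.PFC.B5a Pool.Agent.PFE Pool.Agent.PFE.S

theorem flz : FlzStmt := by
  intro hqke habq hqal hqte hqun hzmx hlcn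
  intro ℓ _ F V _ _ _ _ _ N N1 X B Q P hpg hcp hps htp hloc hmx hN hB z hz
  obtain ⟨βN, sN, hN⟩ := hN
  obtain ⟨βB, sB, hB⟩ := hB
  obtain ⟨X1, βX, sX, hX⟩ := hqal ℓ F V X hpg hcp Q
  have hT := hqte ℓ F V N N1 X X1 Q βN sN βX sX hpg hN hX
  obtain ⟨e0, -, -⟩ := hqun ℓ F V (N.tens X) B (N1.tens X1) Q βB sB _ _ hpg hB hT
  obtain ⟨e, -⟩ : ∃ _ : B.A ≃ₐ[F] N1.A ⊗[F] X1.A, True := ⟨e0, trivial⟩
  obtain ⟨n, hn, hmat⟩ := hmx
  -- `e z` is central
  have hez : ∀ a : N1.A ⊗[F] X1.A, e z * a = a * e z := by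
    intro a
    obtain ⟨b, hb⟩ := e.surjective a
    have h1 : e (z * b) = e (b * z) := by rw [hz b]
    rw [map_mul, map_mul] at h1
    rw [← hb]
    exact h1
  obtain ⟨c, hc, hec⟩ := (hzmx F N1.A X1.A n hn hmat).1 (e z) hez
  obtain ⟨q, hq, -, hbe⟩ := habq hqke ℓ F V X X1 Q βX sX hpg hX
  have hl := (H83.qtpa H49d.bki H70.qfc ℓ F V X.A X1.A X.ι Q q P hpg hq hps htp hloc).2
  rw [hbe] at hl
  have hcm : c ∈ Cz F X1.ι ⊤ := by
    rw [Cz, Subalgebra.mem_centralizer_iff]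
    intro g _
    exact (hc g).symm
  have key : IsUnit c ∨ IsNilpotent c := by
    rcases (hlcn F (Cz F X1.ι ⊤) hl).1 ⟨c, hcm⟩ with h | h
    · left
      exact h.map (Cz F X1.ι ⊤).val
    · right
      exact h.map (Cz F X1.ι ⊤).val
  have hz1 : z = e.symm (1 ⊗ₜ[F] c : N1.A ⊗[F] X1.A) := by
    rw [← hec]
    exact (e.symm_apply_apply z).symm
  have hz2 : z = e.symm ((Algebra.TensorProduct.includeRight : X1.A →ₐ[F] N1.A ⊗[F] X1.A) c) := by
    rw [Algebra.TensorProduct.includeRight_apply]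
    exact hz1
  rcases key with h | h
  · left
    rw [hz2]
    exact (h.map (Algebra.TensorProduct.includeRight : X1.A →ₐ[F] N1.A ⊗[F] X1.A)).map e.symm
  · right
    rw [hz2]
    exact (h.map (Algebra.TensorProduct.includeRight : X1.A →ₐ[F] N1.A ⊗[F] X1.A)).map e.symm

end Pool.Agent.PFE.H32
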