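import Pool.Agent.PFE.StmtsE1
import Pool.Agent.Helper81_PFD.KLT

/-!
Squad PFE, row KKL (helper32, after helper81's row KLT of squad PFD): the equality of the dimensions of
the centres.
-/

set_option autoImplicit false

open scoped BigOperators

noncomputable section

namespace Pool.Agent.PFE.H32

open Pool.Agent.PFC.B1 (FS Split)
open Pool.Agent.PFD (RF FotStmt)
open Pool.Agent.PFE

theorem kkl (kzt : KztStmt) (fot : FotStmt) : KklStmt := by
  intro K B A I J N _ _ _ _ _ _ _ _ _ _ _ D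
  obtain ⟨De, ν, h1, h2, h3, h4, -, h5⟩ := kzt K B A I J N D
  have hDc : ∀ b, De * b = b * De := by
    intro b
    rw [h1, sub_mul, mul_sub, h3 b, Algebra.commutes]
  obtain ⟨hc, hf⟩ := fot K B A I J N D.c D.d D.sp D.s D.cs D.ds D.ort D.v De D.vm hDc h4
  obtain ⟨f, f1, f2⟩ := Pool.Agent.PFD.D4.H81.tr_center (D.s.rt (D.sp.j De)) (D.wt : K)
    (fun a => (hc a).symm) h5
  have h6 : IsNilpotent (De + algebraMap K B (D.wt : K)) := by
    rw [h1, sub_add_cancel]
    exact h2
  obtain ⟨g, g1, g2⟩ := Pool.Agent.PFD.D4.H81.tr_center De (D.wt : K) hDc h6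
  have h7 := hf f g f1 g1
  rw [f2, g2] at h7
  have h8 : (D.wt : K) ≠ 0 := Nat.cast_ne_zero.2 (Nat.pos_iff_ne_zero.1 D.wp)
  exact Nat.cast_injective (R := K) (mul_left_cancel₀ h8 (neg_injective h7))

end Pool.Agent.PFE.H32
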