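import Pool.Agent.PFE.StmtsE1

/-!
Squad PFE, row NWS (helper32): the Newton step for algebra homomorphisms.
-/

set_option autoImplicit false

open scoped BigOperators

noncomputable section

namespace Pool.Agent.PFE.H32

open Pool.Agent.PFE

theorem nws : NwsStmt := by
  intro K A S κ _ _ _ _ _ _ u v P Q ρ huv hB hρ1 hDP hρP hPQ
  -- the correction term
  let θ : S →ₗ[K] A := ∑ k, (LinearMap.mulLeft K (ρ (u k))) ∘ₗ
    (ρ ∘ₗ LinearMap.mulLeft K (v k) - (LinearMap.mulLeft K (ρ (v k))) ∘ₗ ρ)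
  have hθ : ∀ a, θ a = ∑ k, ρ (u k) * (ρ (v k * a) - ρ (v k) * ρ a) := by
    intro a
    simp [θ, LinearMap.sum_apply]
  have hψ : ∀ a, (ρ + θ) a = ρ a + θ a := fun a => LinearMap.add_apply _ _ _
  refine ⟨ρ + θ, fun a => by rw [hψ, hθ], ?_, ?_⟩
  · rw [hψ, hθ, hρ1]
    simp
  intro a b
  have hθP : ∀ c, θ c ∈ P := by
    intro c
    rw [hθ]
    exact P.sum_mem fun k _ => hρP _ _ (hDP _ _)
  -- the bilinear map
  let Bm : S →ₗ[K] S →ₗ[K] A := LinearMap.mk₂ K (fun s t => ρ s * (ρ (t * b) - ρ t * ρ b))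
    (fun s s' t => by simp only [map_add, add_mul])
    (fun c s t => by simp only [map_smul, smul_mul_assoc])
    (fun s t t' => by simp only [map_add, add_mul]; noncomm_ring)
    (fun c s t => by
      simp only [map_smul, smul_mul_assoc, mul_sub, mul_smul_comm, smul_sub])
  have hBm : ∀ s t, Bm s t = ρ s * (ρ (t * b) - ρ t * ρ b) := fun s t => rfl
  have h1 : ∑ k, ρ (u k) * (ρ (v k * a * b) - ρ (v k * a) * ρ b) =
      ρ a * θ b + ∑ k, (ρ (a * u k) - ρ a * ρ (u k)) * (ρ (v k * b) - ρ (v k) * ρ b) := by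
    have h2 := hB Bm a
    simp only [hBm] at h2
    rw [h2, hθ, Finset.mul_sum, ← Finset.sum_add_distrib]
    refine Finset.sum_congr rfl fun k _ => ?_
    noncomm_ring
  have h2 : ∑ k, ρ (u k) * ρ (v k) = 1 - ∑ k, (ρ (u k * v k) - ρ (u k) * ρ (v k)) := by
    rw [Finset.sum_sub_distrib, ← map_sum, huv, hρ1]
    abel
  have h3 : θ (a * b) - θ a * ρ b =
      ∑ k, ρ (u k) * (ρ (v k * a * b) - ρ (v k * a) * ρ b) -
        (∑ k, ρ (u k) * ρ (v k)) * (ρ (a * b) - ρ a * ρ b) := by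
    rw [hθ, hθ, Finset.sum_mul, Finset.sum_mul, ← Finset.sum_sub_distrib,
      ← Finset.sum_sub_distrib]
    refine Finset.sum_congr rfl fun k _ => ?_
    rw [mul_assoc (v k) a b]
    noncomm_ring
  have key : (ρ + θ) (a * b) - (ρ + θ) a * (ρ + θ) b =
      ∑ k, (ρ (a * u k) - ρ a * ρ (u k)) * (ρ (v k * b) - ρ (v k) * ρ b) +
        ∑ k, (ρ (u k * v k) - ρ (u k) * ρ (v k)) * (ρ (a * b) - ρ a * ρ b) - θ a * θ b := by
    rw [← Finset.sum_mul]
    have h4 : (ρ + θ) (a * b) - (ρ + θ) a * (ρ + θ) b =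
        (ρ (a * b) - ρ a * ρ b) + (θ (a * b) - θ a * ρ b) - ρ a * θ b - θ a * θ b := by
      rw [hψ, hψ, hψ]
      noncomm_ring
    rw [h4, h3, h1, h2]
    noncomm_ring
  rw [key]
  refine Q.sub_mem (Q.add_mem (Q.sum_mem fun k _ => ?_) (Q.sum_mem fun k _ => ?_)) ?_
  · exact hPQ _ _ (hDP _ _) (hDP _ _)
  · exact hPQ _ _ (hDP _ _) (hDP _ _)
  · exact hPQ _ _ (hθP _) (hθP _)

end Pool.Agent.PFE.H32
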