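import Pool.Agent.PFE.StmtsE2c
import Pool.Agent.Helper44_PFD.WGD

/-!
# Squad PFE, row OPA (helper32): the symmetric forms of a twisted group algebra
-/

set_option autoImplicit false
set_option linter.unusedSectionVars false

open scoped BigOperators

noncomputable section

namespace Pool.Agent.PFE.H32

open Pool.Agent.PFD Pool.Agent.PFD.D2b Pool.Agent.PFD.D2b.H44

section eps

variable {F V E : Type} [Field F] [CommGroup V] [Fintype V] [Group E]

/-- the augmentation -/
def eps (F V : Type) [Field F] [CommGroup V] : MonoidAlgebra F V →ₐ[F] F :=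
  MonoidAlgebra.lift F F V (1 : V →* F)

theorem eps_of (v : V) : eps F V (MonoidAlgebra.of F V v) = 1 := by
  unfold eps
  rw [MonoidAlgebra.lift_of, MonoidHom.one_apply]

theorem eps_eq (x : MonoidAlgebra F V) : eps F V x = ∑ v, x.coeff v := by
  conv_lhs => rw [← sum_of x]
  rw [map_sum]
  refine Finset.sum_congr rfl fun v _ => ?_
  rw [map_smul, eps_of, smul_eq_mul, mul_one]

theorem eps_act (φ : E →* MulAut V) (e : E) (x : MonoidAlgebra F V) :
    eps F V (acV F φ e x) = eps F V x := by
  rw [eps_eq, eps_eq]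
  refine (Finset.sum_congr rfl fun v _ => MonoidAlgebra.coeff_domCongr (φ e) x v).trans ?_
  exact Equiv.sum_comp (φ e).symm.toEquiv fun v => x.coeff v

end eps

/-- OPA -/
theorem opa (aug : AugStmt) : OpaStmt := by
  intro ℓ _ F V E _ _ _ _ _ _ φ z t hV hfaith hsym hnd
  classical
  obtain ⟨u1, hu1⟩ : ∃ u1, u1 = ∑ s, t (bV φ z s) • bV' φ z s := ⟨_, rfl⟩
  have h1 : ∀ a, t a = lamW φ z (u1 * a) := by
    intro a
    conv_lhs => rw [← bV_sum φ z a]
    rw [map_sum, hu1, Finset.sum_mul, map_sum]
    refine Finset.sum_congr rfl fun s _ => ?_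
    rw [map_smul, smul_mul_assoc, map_smul, smul_eq_mul, smul_eq_mul, mul_comm]
  have hnd0 : ∀ x, (∀ y, lamW φ z (x * y) = 0) → x = 0 := by
    intro x hx
    rw [← bV_sum φ z x]
    refine Finset.sum_eq_zero fun s _ => ?_
    rw [lamW_sym, hx, zero_smul]
  have hcen : ∀ a, u1 * a = a * u1 := by
    intro a
    rw [← sub_eq_zero]
    refine hnd0 _ fun y => ?_
    rw [sub_mul, map_sub, sub_eq_zero, mul_assoc, ← h1, mul_assoc, lamW_sym φ z a, mul_assoc,
      ← h1, hsym]
  -- the unit
  have i1 : Module.Finite F (CP (D0 φ z)) :=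
    Module.Finite.of_surjective (Fintype.linearCombination F (bV φ z)) fun x =>
      ⟨fun s => lamW φ z (bV' φ z s * x), bV_sum φ z x⟩
  have hinj : Function.Injective (LinearMap.mulLeft F u1) := by
    rw [← LinearMap.ker_eq_bot, LinearMap.ker_eq_bot']
    intro a ha
    rw [LinearMap.mulLeft_apply] at ha
    refine hnd a fun b => ?_
    rw [h1, ← mul_assoc, ha, zero_mul, map_zero]
  obtain ⟨u1', hu1'⟩ := LinearMap.injective_iff_surjective.1 hinj 1
  rw [LinearMap.mulLeft_apply] at hu1'
  refine ⟨u1, u1', hcen, hu1', fun a => h1 a, ?_⟩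
  -- the components
  have h2 : ∀ (e : E) (v : V), (MonoidAlgebra.of F V (φ e v) - MonoidAlgebra.of F V v) *
      u1.f e = 0 := by
    intro e v
    have h3 := congrArg (fun x : CP (D0 φ z) => x.f e) (hcen (CP.iS (D0 φ z)
      (MonoidAlgebra.of F V v)))
    change (u1 * CP.iS (D0 φ z) (MonoidAlgebra.of F V v)).f e =
      (CP.iS (D0 φ z) (MonoidAlgebra.of F V v) * u1).f e at h3
    have h4 : (CP.iS (D0 φ z) (MonoidAlgebra.of F V v) * u1).f e =
        MonoidAlgebra.of F V v * u1.f e := by
      rw [CP.iS_apply, CP.sn_mul_f, (D0 φ z).one_left, map_one, inv_one, one_mul, Units.val_one,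
        one_smul]
      rfl
    have h5 : (u1 * CP.iS (D0 φ z) (MonoidAlgebra.of F V v)).f e =
        u1.f e * MonoidAlgebra.of F V (φ e v) := by
      rw [CP.mul_f, Finset.sum_eq_single e]
      · rw [inv_mul_cancel, (D0 φ z).one_right, Units.val_one, one_smul, CP.iS_apply, CP.sn_f,
          if_pos rfl, of_act]
      · intro h _ hh
        rw [CP.iS_apply, CP.sn_f, if_neg, map_zero, mul_zero, smul_zero]
        intro h6
        exact hh (inv_mul_eq_one.1 h6)
      · intro h
        exact absurd (Finset.mem_univ _) h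
    rw [h4, h5] at h3
    rw [sub_mul, mul_comm _ (u1.f e), h3, sub_self]
  have h6 : ∀ e : E, e ≠ 1 → eps F V (u1.f e) = 0 := by
    intro e he
    by_contra hne
    rw [eps_eq] at hne
    have hun := (aug ℓ F V hV (u1.f e)).2 hne
    apply he
    apply hfaith
    intro v
    have h7 := (hun.mul_left_eq_zero).1 (h2 e v)
    rw [sub_eq_zero] at h7
    exact MonoidAlgebra.of_injective h7
  have h8 : eps F V (u1.f 1) * eps F V (u1'.f 1) = 1 := by
    have h9 := congrArg (fun x : CP (D0 φ z) => eps F V (x.f 1)) hu1'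
    change eps F V ((u1 * u1').f 1) = eps F V ((1 : CP (D0 φ z)).f 1) at h9
    rw [CP.mul_f, map_sum, Finset.sum_eq_single 1] at h9
    · rw [map_smul, map_mul, inv_one, one_mul, (D0 φ z).one_left, map_one, Units.val_one,
        one_smul, CP.one_def, CP.sn_f, if_pos rfl, map_one] at h9
      exact h9
    · intro h _ hh
      rw [map_smul, map_mul, h6 h hh, zero_mul, smul_zero]
    · intro h
      exact absurd (Finset.mem_univ _) h
  refine (aug ℓ F V hV (u1.f 1)).2 ?_
  rw [← eps_eq]
  intro h10
  rw [h10, zero_mul] at h8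
  exact zero_ne_one h8

end Pool.Agent.PFE.H32
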