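import Pool.Agent.PFE.StmtsE2b

/-!
# Squad PFE, row TSV (helper32): representatives of the orbits of a free action
-/

set_option autoImplicit false

open scoped BigOperators

noncomputable section

namespace Pool.Agent.PFE.H32

/-- the orbits of the right action -/
def ro (Ω W : Type) [CommGroup W] [MulAction (W × W) Ω] : Setoid Ω where
  r := fun a b => ∃ w : W, ((1, w) : W × W) • a = b
  iseqv := by
    refine ⟨fun a => ⟨1, one_smul _ a⟩, ?_, ?_⟩
    · rintro a b ⟨w, rfl⟩
      refine ⟨w⁻¹, ?_⟩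
      rw [smul_smul, Prod.mk_mul_mk, one_mul, inv_mul_cancel]
      exact one_smul _ a
    · rintro a b c ⟨w, rfl⟩ ⟨v, rfl⟩
      refine ⟨v * w, ?_⟩
      rw [smul_smul, Prod.mk_mul_mk, one_mul]

/-- TSV -/
theorem tsv : TsvStmt := by
  intro Ω W _ _ _ _ hfree
  classical
  refine ⟨Finset.univ.filter fun o => (Quotient.mk (ro Ω W) o).out = o, ?_⟩
  intro M _ H
  rw [← Finset.sum_product (f := fun p : Ω × W => H (((1, p.2) : W × W) • p.1))]
  symm
  refine Finset.sum_bij (fun p _ => ((1, p.2) : W × W) • p.1) (fun _ _ => Finset.mem_univ _)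
    ?_ ?_ (fun _ _ => rfl)
  · rintro ⟨t, w⟩ ht ⟨t', w'⟩ ht' h
    change ((1, w) : W × W) • t = ((1, w') : W × W) • t' at h
    have h1 := (Finset.mem_filter.1 (Finset.mem_product.1 ht).1).2
    have h1' := (Finset.mem_filter.1 (Finset.mem_product.1 ht').1).2
    change (Quotient.mk (ro Ω W) t).out = t at h1
    change (Quotient.mk (ro Ω W) t').out = t' at h1'
    have h2 : ((1, w'⁻¹ * w) : W × W) • t = t' := by
      have h3 : ((1, w'⁻¹ * w) : W × W) = (1, w'⁻¹) * (1, w) := by
        rw [Prod.mk_mul_mk, one_mul]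
      rw [h3, ← smul_smul, h, smul_smul, Prod.mk_mul_mk, one_mul, inv_mul_cancel]
      exact one_smul _ t'
    have h4 : Quotient.mk (ro Ω W) t = Quotient.mk (ro Ω W) t' := Quotient.sound ⟨_, h2⟩
    have h5 : t = t' := by rw [← h1, h4, h1']
    subst h5
    have h6 := hfree _ _ h2
    rw [inv_mul_eq_one.1 h6]
  · intro o _
    have h1 : (Quotient.mk (ro Ω W) (Quotient.mk (ro Ω W) o).out) = Quotient.mk (ro Ω W) o :=
      Quotient.out_eq _
    obtain ⟨w, hw⟩ : ∃ w : W, ((1, w) : W × W) • (Quotient.mk (ro Ω W) o).out = o :=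
      Quotient.exact h1
    refine ⟨((Quotient.mk (ro Ω W) o).out, w), ?_, hw⟩
    rw [Finset.mem_product]
    refine ⟨Finset.mem_filter.2 ⟨Finset.mem_univ _, ?_⟩, Finset.mem_univ _⟩
    change (Quotient.mk (ro Ω W) (Quotient.mk (ro Ω W) o).out).out =
      (Quotient.mk (ro Ω W) o).out
    rw [h1]

end Pool.Agent.PFE.H32
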